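import Mathlib

set_option autoImplicit false

/-!
# Moser's problem on translative coverings of the unit square by rectangles

Every family of rectangles with sides parallel to the coordinate axes, with side lengths at most
one and with total area at least three, covers the unit square by translations.

Idea.  A rectangle `p × q` is covered by every family of rectangles of widths at most `A` and
heights at most `B` whose total area is at least `max (A q + B p) (3 p q)`.  A member which is as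
wide (or as high) as the target is put in first, and the condition is inherited by the rest of the
target.  Otherwise one may take `A = p`, `B = q`; there is a dyadic class of heights whose widths
add up to at least `p`, which gives a row whose heights differ by a factor at most two, and again
the condition is inherited.
-/

namespace Pool.Agent.Results.MP_6800d9_co.MoserRectangles

open Set

/-- The closed rectangle with lower left corner `v`, width `a` and height `b`. -/
def Rect (v : ℝ × ℝ) (a b : ℝ) : Set (ℝ × ℝ) := Icc v.1 (v.1 + a) ×ˢ Icc v.2 (v.2 + b)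

section finite

variable {ι : Type} {a b : ι → ℝ}

/-- some translates of the rectangles with index in `S` cover `X` -/
def Cov (a b : ι → ℝ) (S : Finset ι) (X : Set (ℝ × ℝ)) : Prop :=
  ∃ v : ι → ℝ × ℝ, X ⊆ ⋃ i ∈ S, Rect (v i) (a i) (b i)

theorem Cov.mono {S : Finset ι} {X Y : Set (ℝ × ℝ)} (h : Cov a b S X) (hY : Y ⊆ X) :
    Cov a b S Y := by
  obtain ⟨v, hv⟩ := h
  exact ⟨v, hY.trans hv⟩

theorem Cov.mono_left {S S' : Finset ι} {X : Set (ℝ × ℝ)} (h : Cov a b S X) (hS : S ⊆ S') :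
    Cov a b S' X := by
  obtain ⟨v, hv⟩ := h
  exact ⟨v, hv.trans (biUnion_subset_biUnion_left fun i hi => hS hi)⟩

theorem Cov.union {S D E : Finset ι} {X Y Z : Set (ℝ × ℝ)} (hD : Cov a b D X)
    (hE : Cov a b E Y) (hDE : Disjoint D E) (hDS : D ⊆ S) (hES : E ⊆ S) (hZ : Z ⊆ X ∪ Y) :
    Cov a b S Z := by
  classical
  obtain ⟨v, hv⟩ := hD
  obtain ⟨w, hw⟩ := hE
  refine ⟨fun i => if i ∈ D then v i else w i, fun z hz => ?_⟩
  rcases hZ hz with h | h
  · obtain ⟨i, hi, hzi⟩ := mem_iUnion₂.1 (hv h)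
    refine mem_iUnion₂.2 ⟨i, hDS hi, ?_⟩
    simp only [if_pos hi]
    exact hzi
  · obtain ⟨i, hi, hzi⟩ := mem_iUnion₂.1 (hw h)
    refine mem_iUnion₂.2 ⟨i, hES hi, ?_⟩
    simp only [if_neg (Finset.disjoint_right.1 hDE hi)]
    exact hzi

theorem cov_single {S : Finset ι} {i : ι} (hi : i ∈ S) {x y p q : ℝ} (hp : p ≤ a i)
    (hq : q ≤ b i) : Cov a b S (Rect (x, y) p q) := by
  refine ⟨fun _ => (x, y), fun z hz => mem_iUnion₂.2 ⟨i, hi, ?_⟩⟩
  obtain ⟨h1, h2⟩ := hz
  exact ⟨⟨h1.1, h1.2.trans (by simpa using hp)⟩, ⟨h2.1, h2.2.trans (by simpa using hq)⟩⟩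

/-- a row -/
theorem cov_row (D : Finset ι) (hD : D.Nonempty) {s : ℝ} (hs : ∀ i ∈ D, s ≤ b i) (y : ℝ) :
    ∀ x p : ℝ, p ≤ ∑ i ∈ D, a i → Cov a b D (Rect (x, y) p s) := by
  classical
  induction hD using Finset.Nonempty.cons_induction with
  | singleton i =>
    intro x p hp
    rw [Finset.sum_singleton] at hp
    exact cov_single (Finset.mem_singleton_self i) hp (hs i (Finset.mem_singleton_self i))
  | cons i D hi hne ih =>
    intro x p hp
    rw [Finset.sum_cons] at hp
    have h1 := ih (fun j hj => hs j (Finset.mem_cons_of_mem hj)) (x + a i) (p - a i)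
      (by linarith)
    have h2 : Cov a b {i} (Rect (x, y) (a i) s) :=
      cov_single (Finset.mem_singleton_self i) le_rfl (hs i (Finset.mem_cons_self i D))
    refine h2.union h1 (Finset.disjoint_singleton_left.2 hi)
      (Finset.singleton_subset_iff.2 (Finset.mem_cons_self i D)) (Finset.subset_cons hi) ?_
    rintro z ⟨hz1, hz2⟩
    simp only [mem_Icc] at hz1 hz2
    rcases le_total z.1 (x + a i) with h | h
    · exact Or.inl ⟨⟨hz1.1, h⟩, hz2⟩
    · refine Or.inr ⟨⟨h, ?_⟩, hz2⟩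
      have := hz1.2
      simp only
      linarith

/-- a family of small rectangles of area more than `2 p q` contains a good row -/
theorem exists_row (S : Finset ι) {p q : ℝ} (hp : 0 < p) (hq : 0 < q)
    (hS : ∀ i ∈ S, 0 < a i ∧ a i ≤ p ∧ 0 < b i ∧ b i ≤ q)
    (hT : 2 * (p * q) < ∑ i ∈ S, a i * b i) :
    ∃ D ⊆ S, ∃ m ∈ D, ∃ h : ℝ, 0 < h ∧ h ≤ q ∧ h ≤ 2 * b m ∧ (∀ i ∈ D, b m ≤ b i) ∧
      p ≤ ∑ i ∈ D, a i ∧ ∑ i ∈ D, a i * b i < h * p + p * b m := by
  classical
  -- the classes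
  have hk : ∀ i : ι, ∃ k : ℕ, i ∈ S → (b i ≤ q / 2 ^ k ∧ q / 2 ^ k ≤ 2 * b i) := by
    intro i
    by_cases hi : i ∈ S
    · obtain ⟨_, _, h3, h4⟩ := hS i hi
      obtain ⟨k, hk1, hk2⟩ := exists_nat_pow_near (x := q / b i) (y := 2)
        ((one_le_div h3).2 h4) one_lt_two
      refine ⟨k, fun _ => ⟨?_, ?_⟩⟩
      · rw [le_div_iff₀ (by positivity)]
        rw [le_div_iff₀ h3] at hk1
        linarith
      · rw [div_le_iff₀ (by positivity)]
        rw [div_lt_iff₀ h3, pow_succ] at hk2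
        linarith
    · exact ⟨0, fun h => absurd h hi⟩
  choose c hc using hk
  -- one class is wide
  obtain ⟨k, hkw⟩ : ∃ k : ℕ, p ≤ ∑ i ∈ S with c i = k, a i := by
    by_contra hcon
    push Not at hcon
    have h1 : ∑ i ∈ S, a i * b i ≤ ∑ i ∈ S, a i * (q / 2 ^ c i) :=
      Finset.sum_le_sum fun i hi => mul_le_mul_of_nonneg_left (hc i hi).1 (hS i hi).1.le
    have h2 : ∑ i ∈ S, a i * (q / 2 ^ c i) =
        ∑ k ∈ S.image c, ∑ i ∈ S with c i = k, a i * (q / 2 ^ c i) :=
      (Finset.sum_fiberwise_of_maps_to (fun i hi => Finset.mem_image_of_mem c hi) _).symm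
    have h3 : ∀ k ∈ S.image c, ∑ i ∈ S with c i = k, a i * (q / 2 ^ c i) ≤
        (p * q) * (1 / 2) ^ k := by
      intro k _
      have h4 : ∑ i ∈ S with c i = k, a i * (q / 2 ^ c i) =
          (∑ i ∈ S with c i = k, a i) * (q / 2 ^ k) := by
        rw [Finset.sum_mul]
        refine Finset.sum_congr rfl fun i hi => ?_
        rw [(Finset.mem_filter.1 hi).2]
      rw [h4, show (p * q) * (1 / 2) ^ k = p * (q / 2 ^ k) by
        rw [one_div, inv_pow]
        ring]
      exact mul_le_mul_of_nonneg_right (hcon k).le (by positivity)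
    have h5 : ∑ k ∈ S.image c, (p * q) * (1 / 2 : ℝ) ^ k ≤ (p * q) * 2 := by
      rw [← Finset.mul_sum]
      refine mul_le_mul_of_nonneg_left ?_ (by positivity)
      refine le_trans ?_ tsum_geometric_two.le
      exact summable_geometric_two.sum_le_tsum _ fun k _ => by positivity
    have h6 := h1.trans (h2.le.trans ((Finset.sum_le_sum h3).trans h5))
    linarith
  -- a minimal wide part of the class
  set C : Finset ι := S.filter fun i => c i = k with hC
  obtain ⟨D, hDmem, hDmin⟩ := (C.powerset.filter fun D => p ≤ ∑ i ∈ D, a i).exists_minimal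
    ⟨C, Finset.mem_filter.2 ⟨Finset.mem_powerset_self C, hkw⟩⟩
  obtain ⟨hDC, hDp⟩ := Finset.mem_filter.1 hDmem
  have hDC' : D ⊆ C := Finset.mem_powerset.1 hDC
  have hDS : D ⊆ S := hDC'.trans (Finset.filter_subset _ _)
  have hDne : D.Nonempty := by
    rw [Finset.nonempty_iff_ne_empty]
    rintro rfl
    rw [Finset.sum_empty] at hDp
    linarith
  obtain ⟨m, hm, hmin⟩ := D.exists_min_image b hDne
  have hmS := hS m (hDS hm)
  have hclass : ∀ i ∈ D, b i ≤ q / 2 ^ k ∧ q / 2 ^ k ≤ 2 * b i := fun i hi => by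
    have h1 := hc i (hDS hi)
    rw [(Finset.mem_filter.1 (hDC' hi)).2] at h1
    exact h1
  have hlt : ∑ i ∈ D.erase m, a i < p := by
    by_contra hcon
    have h1 : D.erase m ∈ C.powerset.filter fun D => p ≤ ∑ i ∈ D, a i :=
      Finset.mem_filter.2 ⟨Finset.mem_powerset.2 ((Finset.erase_subset _ _).trans hDC'),
        not_lt.1 hcon⟩
    have h2 := hDmin h1 (Finset.erase_subset _ _)
    exact Finset.notMem_erase m D (h2 hm)
  have hhq : q / 2 ^ k ≤ q := div_le_self hq.le (one_le_pow₀ one_le_two)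
  refine ⟨D, hDS, m, hm, q / 2 ^ k, by positivity, hhq, (hclass m hm).2, hmin, hDp, ?_⟩
  rw [← Finset.sum_erase_add _ _ hm]
  have h1 : ∑ i ∈ D.erase m, a i * b i ≤ (∑ i ∈ D.erase m, a i) * (q / 2 ^ k) := by
    rw [Finset.sum_mul]
    refine Finset.sum_le_sum fun i hi => ?_
    have hi' := Finset.mem_of_mem_erase hi
    exact mul_le_mul_of_nonneg_left (hclass i hi').1 (hS i (hDS hi')).1.le
  have h2 : (∑ i ∈ D.erase m, a i) * (q / 2 ^ k) < p * (q / 2 ^ k) :=
    mul_lt_mul_of_pos_right hlt (by positivity)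
  have h3 : a m * b m ≤ p * b m := mul_le_mul_of_nonneg_right hmS.2.1 hmS.2.2.1.le
  calc ∑ i ∈ D.erase m, a i * b i + a m * b m < p * (q / 2 ^ k) + p * b m := by linarith
    _ = q / 2 ^ k * p + p * b m := by ring

/-- the covering theorem for finite families -/
theorem cov_finite (n : ℕ) : ∀ (S : Finset ι), S.card = n → ∀ A B x y p q : ℝ, 0 < p → 0 < q →
    (∀ i ∈ S, 0 < a i ∧ a i ≤ A ∧ 0 < b i ∧ b i ≤ B) →
    A * q + B * p ≤ ∑ i ∈ S, a i * b i → 3 * (p * q) ≤ ∑ i ∈ S, a i * b i →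
    Cov a b S (Rect (x, y) p q) := by
  classical
  induction n using Nat.strong_induction_on with
  | _ n ih =>
  intro S hcard A B x y p q hp hq hS h1 h2
  by_cases hwide : ∃ i ∈ S, p ≤ a i
  · -- a wide member
    obtain ⟨i, hi, hpi⟩ := hwide
    obtain ⟨h3, h4, h5, h6⟩ := hS i hi
    rcases le_or_gt q (b i) with hqi | hqi
    · exact cov_single hi hpi hqi
    have hsum : ∑ j ∈ S.erase i, a j * b j = ∑ j ∈ S, a j * b j - a i * b i := by
      rw [← Finset.sum_erase_add _ _ hi]
      ring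
    have h7 : a i * b i ≤ A * b i := mul_le_mul_of_nonneg_right h4 h5.le
    have hc1 : A * (q - b i) + B * p ≤ ∑ j ∈ S.erase i, a j * b j := by
      rw [hsum]
      linarith
    have hc2 : 3 * (p * (q - b i)) ≤ ∑ j ∈ S.erase i, a j * b j := by
      rcases le_or_gt (a i) (3 * p) with h8 | h8
      · rw [hsum]
        have h9 : a i * b i ≤ 3 * p * b i := mul_le_mul_of_nonneg_right h8 h5.le
        linarith
      · have h9 : 3 * p * (q - b i) ≤ A * (q - b i) :=
          mul_le_mul_of_nonneg_right (h8.le.trans h4) (by linarith)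
        have h10 : 0 ≤ B * p := mul_nonneg (h5.le.trans h6) hp.le
        linarith
    have hrest := ih _ (by rw [← hcard]; exact Finset.card_erase_lt_of_mem hi) (S.erase i) rfl
      A B x (y + b i) p (q - b i) hp (by linarith)
      (fun j hj => hS j (Finset.mem_of_mem_erase hj)) hc1 hc2
    have hfirst : Cov a b {i} (Rect (x, y) p (b i)) :=
      cov_single (Finset.mem_singleton_self i) hpi le_rfl
    refine hfirst.union hrest (Finset.disjoint_singleton_left.2 (Finset.notMem_erase i S))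
      (Finset.singleton_subset_iff.2 hi) (Finset.erase_subset i S) ?_
    rintro z ⟨hz1, hz2⟩
    simp only [mem_Icc] at hz1 hz2
    rcases le_total z.2 (y + b i) with h | h
    · exact Or.inl ⟨hz1, ⟨hz2.1, h⟩⟩
    · refine Or.inr ⟨hz1, ⟨h, ?_⟩⟩
      simp only
      linarith
  by_cases hhigh : ∃ i ∈ S, q ≤ b i
  · -- a high member
    obtain ⟨i, hi, hqi⟩ := hhigh
    obtain ⟨h3, h4, h5, h6⟩ := hS i hi
    rcases le_or_gt p (a i) with hpi | hpi
    · exact cov_single hi hpi hqi
    have hsum : ∑ j ∈ S.erase i, a j * b j = ∑ j ∈ S, a j * b j - a i * b i := by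
      rw [← Finset.sum_erase_add _ _ hi]
      ring
    have h7 : a i * b i ≤ a i * B := mul_le_mul_of_nonneg_left h6 h3.le
    have hc1 : A * q + B * (p - a i) ≤ ∑ j ∈ S.erase i, a j * b j := by
      rw [hsum]
      linarith
    have hc2 : 3 * ((p - a i) * q) ≤ ∑ j ∈ S.erase i, a j * b j := by
      rcases le_or_gt (b i) (3 * q) with h8 | h8
      · rw [hsum]
        have h9 : a i * b i ≤ a i * (3 * q) := mul_le_mul_of_nonneg_left h8 h3.le
        linarith
      · have h9 : 3 * q * (p - a i) ≤ B * (p - a i) :=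
          mul_le_mul_of_nonneg_right (h8.le.trans h6) (by linarith)
        have h10 : 0 ≤ A * q := mul_nonneg (h3.le.trans h4) hq.le
        linarith
    have hrest := ih _ (by rw [← hcard]; exact Finset.card_erase_lt_of_mem hi) (S.erase i) rfl
      A B (x + a i) y (p - a i) q (by linarith) hq
      (fun j hj => hS j (Finset.mem_of_mem_erase hj)) hc1 hc2
    have hfirst : Cov a b {i} (Rect (x, y) (a i) q) :=
      cov_single (Finset.mem_singleton_self i) le_rfl hqi
    refine hfirst.union hrest (Finset.disjoint_singleton_left.2 (Finset.notMem_erase i S))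
      (Finset.singleton_subset_iff.2 hi) (Finset.erase_subset i S) ?_
    rintro z ⟨hz1, hz2⟩
    simp only [mem_Icc] at hz1 hz2
    rcases le_total z.1 (x + a i) with h | h
    · exact Or.inl ⟨⟨hz1.1, h⟩, hz2⟩
    · refine Or.inr ⟨⟨h, ?_⟩, hz2⟩
      simp only
      linarith
  -- all members are small: a row
  push Not at hwide hhigh
  obtain ⟨D, hDS, m, hm, h, hh0, hhq, hhm, hmin, hDp, hDT⟩ := exists_row S hp hq
    (fun i hi => ⟨(hS i hi).1, (hwide i hi).le, (hS i hi).2.2.1, (hhigh i hi).le⟩)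
    (by
      have : 0 < p * q := mul_pos hp hq
      linarith)
  have hbm := hhigh m (hDS hm)
  have hsum : ∑ j ∈ S \ D, a j * b j = ∑ j ∈ S, a j * b j - ∑ j ∈ D, a j * b j := by
    rw [← Finset.sum_sdiff hDS]
    ring
  have e1 : h * p ≤ q * p := mul_le_mul_of_nonneg_right hhq hp.le
  have e2 : h * p ≤ 2 * b m * p := mul_le_mul_of_nonneg_right hhm hp.le
  have hrest := ih _ (by
      rw [← hcard]
      exact Finset.card_lt_card (Finset.sdiff_ssubset hDS ⟨m, hm⟩)) (S \ D) rfl
    p q x (y + b m) p (q - b m) hp (by linarith)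
    (fun j hj => by
      have hj' := (Finset.mem_sdiff.1 hj).1
      exact ⟨(hS j hj').1, (hwide j hj').le, (hS j hj').2.2.1, (hhigh j hj').le⟩)
    (by
      rw [hsum]
      linarith)
    (by
      rw [hsum]
      linarith)
  have hfirst : Cov a b D (Rect (x, y) p (b m)) :=
    cov_row D ⟨m, hm⟩ hmin y x p hDp
  refine hfirst.union hrest Finset.disjoint_sdiff hDS Finset.sdiff_subset ?_
  rintro z ⟨hz1, hz2⟩
  simp only [mem_Icc] at hz1 hz2
  rcases le_total z.2 (y + b m) with h' | h'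
  · exact Or.inl ⟨hz1, ⟨hz2.1, h'⟩⟩
  · refine Or.inr ⟨hz1, ⟨h', ?_⟩⟩
    simp only
    linarith

end finite

/-- the first row, and the rest of the family -/
theorem cov_of_first {ι : Type} {a b : ι → ℝ}
    (hab : ∀ i, 0 < a i ∧ a i ≤ 1 ∧ 0 < b i ∧ b i ≤ 1)
    (hsup : ∀ t < (3 : ℝ), ∃ S : Finset ι, t < ∑ i ∈ S, a i * b i)
    (D : Finset ι) {s : ℝ} (hcov : Cov a b D (Rect (0, 0) 1 s))
    (hD1 : ∑ i ∈ D, a i * b i < 1 + s) (hD2 : ∑ i ∈ D, a i * b i < 3 * s) :
    ∃ S : Finset ι, Cov a b S (Rect (0, 0) 1 1) := by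
  classical
  rcases le_or_gt 1 s with h1 | h1
  · refine ⟨D, hcov.mono ?_⟩
    rintro z ⟨hz1, hz2⟩
    refine ⟨hz1, ⟨hz2.1, hz2.2.trans ?_⟩⟩
    simpa using h1
  have hlt : max (2 - s) (3 - 3 * s) + ∑ i ∈ D, a i * b i < 3 := by
    rcases le_total (2 - s) (3 - 3 * s) with h | h
    · rw [max_eq_right h]
      linarith
    · rw [max_eq_left h]
      linarith
  obtain ⟨S, hS⟩ := hsup _ hlt
  have h2 : ∑ i ∈ S, a i * b i ≤ ∑ i ∈ S \ D, a i * b i + ∑ i ∈ D, a i * b i := by
    rw [← Finset.sum_union Finset.sdiff_disjoint]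
    refine Finset.sum_le_sum_of_subset_of_nonneg ?_ fun i _ _ =>
      (mul_pos (hab i).1 (hab i).2.2.1).le
    intro i hi
    by_cases h : i ∈ D
    · exact Finset.mem_union_right _ h
    · exact Finset.mem_union_left _ (Finset.mem_sdiff.2 ⟨hi, h⟩)
  have h3 : max (2 - s) (3 - 3 * s) ≤ ∑ i ∈ S \ D, a i * b i := by linarith
  have h4 := le_trans (le_max_left _ _) h3
  have h5 := le_trans (le_max_right _ _) h3
  have hrest := cov_finite (a := a) (b := b) _ (S \ D) rfl 1 1 0 s 1 (1 - s) one_pos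
    (by linarith) (fun i _ => hab i) (by linarith) (by linarith)
  refine ⟨D ∪ (S \ D), hcov.union hrest Finset.disjoint_sdiff Finset.subset_union_left
    Finset.subset_union_right ?_⟩
  rintro z ⟨hz1, hz2⟩
  simp only [mem_Icc, zero_add] at hz1 hz2
  rcases le_total z.2 s with h' | h'
  · refine Or.inl ⟨?_, ?_⟩
    · simpa using hz1
    · simpa using ⟨hz2.1, h'⟩
  · refine Or.inr ⟨?_, ?_⟩
    · simpa using hz1
    · simpa using ⟨h', hz2.2⟩

/-- **Moser's problem.**  Every family of rectangles with sides parallel to the axes, whose side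
lengths are at most one and whose total area is at least three, covers the unit square by
translations: there are `v i` such that every point of the unit square lies in one of the
rectangles `[v i + (0, 0), v i + (a i, b i)]`. -/
theorem result : ∀ (ι : Type) (a b : ι → ℝ), (∀ i, 0 < a i ∧ a i ≤ 1 ∧ 0 < b i ∧ b i ≤ 1) →
    3 ≤ ∑' i, ENNReal.ofReal (a i * b i) →
    ∃ v : ι → ℝ × ℝ, Icc (0 : ℝ) 1 ×ˢ Icc (0 : ℝ) 1 ⊆
      ⋃ i, Icc (v i).1 ((v i).1 + a i) ×ˢ Icc (v i).2 ((v i).2 + b i) := by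
  classical
  intro ι a b hab hT
  have hnn : ∀ i, 0 ≤ a i * b i := fun i => (mul_pos (hab i).1 (hab i).2.2.1).le
  have hsup : ∀ t < (3 : ℝ), ∃ S : Finset ι, t < ∑ i ∈ S, a i * b i := by
    intro t ht
    have h1 : ENNReal.ofReal t < ∑' i, ENNReal.ofReal (a i * b i) := by
      refine lt_of_lt_of_le ?_ hT
      rw [← ENNReal.ofReal_ofNat]
      exact (ENNReal.ofReal_lt_ofReal_iff (by norm_num)).2 ht
    rw [ENNReal.tsum_eq_iSup_sum, lt_iSup_iff] at h1
    obtain ⟨S, hS⟩ := h1
    rw [← ENNReal.ofReal_sum_of_nonneg fun i _ => hnn i] at hS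
    exact ⟨S, (ENNReal.ofReal_lt_ofReal_iff'.1 hS).1⟩
  obtain ⟨S, hS⟩ := hsup 2 (by norm_num)
  obtain ⟨D, _, m, hm, h, hh0, hh1, hhm, hmin, hDp, hDT⟩ := exists_row (a := a) (b := b) S
    one_pos one_pos (fun i _ => hab i) (by linarith)
  obtain ⟨S', v, hv⟩ := cov_of_first hab hsup D (s := b m) (cov_row D ⟨m, hm⟩ hmin 0 0 1 hDp)
    (by linarith) (by linarith)
  refine ⟨v, fun z hz => ?_⟩
  have hz' : z ∈ Rect (0, 0) 1 1 := by
    simpa [Rect] using hz
  obtain ⟨i, _, hi⟩ := mem_iUnion₂.1 (hv hz')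
  exact mem_iUnion.2 ⟨i, hi⟩

end Pool.Agent.Results.MP_6800d9_co.MoserRectangles
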